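import Mathlib

open Finset

namespace Pool.Agent.Q170.Kraw

/-- The generalized binomial coefficient `x (x-1) ... (x-j+1) / j!` of a real number `x`. -/
noncomputable def binom (x : ℝ) (j : ℕ) : ℝ := (∏ i ∈ range j, (x - i)) / (j.factorial : ℝ)

/-- The binary Krawtchouk polynomial `K_m(x; N)`, as a function of the real variable `x`. -/
noncomputable def kraw (m : ℕ) (N x : ℝ) : ℝ :=
  ∑ j ∈ range (m + 1), (-1) ^ j * binom x j * binom (N - x) (m - j)

/-- The number `e_k(n, a)` of edges of the complete oddly bipartite `2k`-graph with parts of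
sizes `a` and `n - a`. -/
def edges (k n a : ℕ) : ℕ :=
  ∑ i ∈ (range (2 * k + 1)).filter Odd, a.choose i * (n - a).choose (2 * k - i)

/-- The set `M_k(n)` of the part sizes `a ∈ {0, ..., n}` at which `e_k(n, a)` is maximal. -/
def maximisers (k n : ℕ) : Set ℕ := {a | a ≤ n ∧ ∀ b ≤ n, edges k n b ≤ edges k n a}

lemma binom_zero (x : ℝ) : binom x 0 = 1 := by simp [binom]

lemma binom_succ (x : ℝ) (j : ℕ) : ((j : ℝ) + 1) * binom x (j + 1) = (x - j) * binom x j := by
  unfold binom
  rw [prod_range_succ, Nat.factorial_succ]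
  have : (j.factorial : ℝ) ≠ 0 := by exact_mod_cast j.factorial_ne_zero
  have : (j : ℝ) + 1 ≠ 0 := by positivity
  push_cast
  field_simp

lemma binom_aux (x : ℝ) (j : ℕ) : (x + 1 - j) * binom (x + 1) j = (x + 1) * binom x j := by
  induction j with
  | zero => simp [binom_zero]
  | succ j ih =>
    have h1 := binom_succ (x + 1) j
    have h2 := binom_succ x j
    have h3 : (j : ℝ) + 1 ≠ 0 := by positivity
    apply mul_left_cancel₀ h3
    push_cast
    calc ((j : ℝ) + 1) * ((x + 1 - (j + 1)) * binom (x + 1) (j + 1))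
        = (x - j) * (((j : ℝ) + 1) * binom (x + 1) (j + 1)) := by ring
      _ = (x - j) * ((x + 1 - j) * binom (x + 1) j) := by rw [h1]
      _ = (x - j) * ((x + 1) * binom x j) := by rw [ih]
      _ = (x + 1) * ((x - j) * binom x j) := by ring
      _ = (x + 1) * (((j : ℝ) + 1) * binom x (j + 1)) := by rw [h2]
      _ = _ := by ring

lemma binom_pascal (x : ℝ) (j : ℕ) : binom (x + 1) (j + 1) = binom x (j + 1) + binom x j := by
  have h1 := binom_succ (x + 1) j
  have h2 := binom_succ x j
  have h4 := binom_aux x j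
  have h3 : (j : ℝ) + 1 ≠ 0 := by positivity
  apply mul_left_cancel₀ h3
  rw [h1, mul_add, h2, h4]
  ring

lemma binom_natCast (a j : ℕ) : binom (a : ℝ) j = (a.choose j : ℝ) := by
  induction j with
  | zero => simp [binom_zero]
  | succ j ih =>
    have h3 : (j : ℝ) + 1 ≠ 0 := by positivity
    apply mul_left_cancel₀ h3
    rw [binom_succ, ih]
    have h := Nat.choose_succ_right_eq a j
    rcases le_or_gt j a with hj | hj
    · have h' : ((a.choose (j + 1) * (j + 1) : ℕ) : ℝ) = ((a.choose j * (a - j) : ℕ) : ℝ) := by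
        rw [h]
      push_cast [Nat.cast_sub hj] at h'
      linarith
    · rw [Nat.choose_eq_zero_of_lt hj, Nat.choose_eq_zero_of_lt (by omega)]
      simp

/-- generating function of the signed binomials. -/
noncomputable def serA (x : ℝ) : PowerSeries ℝ := PowerSeries.mk fun j => (-1) ^ j * binom x j

/-- generating function of the binomials. -/
noncomputable def serB (x : ℝ) : PowerSeries ℝ := PowerSeries.mk fun j => binom x j

lemma kraw_eq_coeff (m : ℕ) (N x : ℝ) :
    kraw m N x = PowerSeries.coeff m (serA x * serB (N - x)) := by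
  rw [PowerSeries.coeff_mul, Finset.Nat.sum_antidiagonal_eq_sum_range_succ_mk]
  unfold kraw serA serB
  simp [PowerSeries.coeff_mk]

lemma serA_deriv (x : ℝ) : (1 - PowerSeries.X) * PowerSeries.derivative ℝ (serA x) =
    - (PowerSeries.C x * serA x) := by
  ext n
  rw [sub_mul, one_mul, map_sub, map_neg, PowerSeries.coeff_C_mul]
  rcases n with _ | n
  · rw [PowerSeries.coeff_zero_X_mul, PowerSeries.coeff_derivative]
    simp [serA, PowerSeries.coeff_mk]
    have := binom_succ x 0
    simp [binom_zero] at this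
    rw [this, binom_zero, mul_one]
  · rw [PowerSeries.coeff_succ_X_mul, PowerSeries.coeff_derivative,
      PowerSeries.coeff_derivative]
    simp only [serA, PowerSeries.coeff_mk]
    have h := binom_succ x (n + 1)
    push_cast at h ⊢
    have h2 : (-1 : ℝ) ^ (n + 1 + 1) = - (-1) ^ (n + 1) := by ring
    rw [h2]
    linear_combination (-(-1 : ℝ) ^ (n + 1)) * h

lemma serB_deriv (x : ℝ) : (1 + PowerSeries.X) * PowerSeries.derivative ℝ (serB x) =
    PowerSeries.C x * serB x := by
  ext n
  rw [add_mul, one_mul, map_add, PowerSeries.coeff_C_mul]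
  rcases n with _ | n
  · rw [PowerSeries.coeff_zero_X_mul, PowerSeries.coeff_derivative]
    simp [serB, PowerSeries.coeff_mk]
    have := binom_succ x 0
    simp [binom_zero] at this
    rw [this, binom_zero, mul_one]
  · rw [PowerSeries.coeff_succ_X_mul, PowerSeries.coeff_derivative,
      PowerSeries.coeff_derivative]
    simp only [serB, PowerSeries.coeff_mk]
    have h := binom_succ x (n + 1)
    push_cast at h ⊢
    linear_combination h

lemma kraw_zero (N x : ℝ) : kraw 0 N x = 1 := by
  simp [kraw, binom_zero]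

lemma kraw_one (N x : ℝ) : kraw 1 N x = N - 2 * x := by
  have h1 := binom_succ x 0
  have h2 := binom_succ (N - x) 0
  simp [binom_zero] at h1 h2
  rw [kraw, sum_range_succ, sum_range_one]
  simp [binom_zero, h1, h2]
  ring

/-- The three-term recurrence. -/
lemma kraw_rec (m : ℕ) (N x : ℝ) : ((m : ℝ) + 2) * kraw (m + 2) N x =
    (N - 2 * x) * kraw (m + 1) N x - (N - m) * kraw m N x := by
  set G := serA x * serB (N - x) with hG
  have hder : (1 - PowerSeries.X ^ 2) * PowerSeries.derivative ℝ G =
      PowerSeries.C (N - 2 * x) * G - PowerSeries.X * (PowerSeries.C N * G) := by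
    have h1 := serA_deriv x
    have h2 := serB_deriv (N - x)
    rw [hG, Derivation.leibniz]
    simp only [smul_eq_mul]
    have h3 : (1 - PowerSeries.X ^ 2 : PowerSeries ℝ) *
        (serA x * PowerSeries.derivative ℝ (serB (N - x)) +
          serB (N - x) * PowerSeries.derivative ℝ (serA x)) =
        (1 - PowerSeries.X) * serA x * ((1 + PowerSeries.X) *
          PowerSeries.derivative ℝ (serB (N - x))) +
        (1 + PowerSeries.X) * serB (N - x) * ((1 - PowerSeries.X) *
          PowerSeries.derivative ℝ (serA x)) := by ring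
    rw [h3, h1, h2]
    have h4 : (PowerSeries.C (N - x) : PowerSeries ℝ) = PowerSeries.C N - PowerSeries.C x :=
      map_sub _ _ _
    have h5 : (PowerSeries.C (N - 2 * x) : PowerSeries ℝ) = PowerSeries.C N - 2 * PowerSeries.C x := by
      rw [map_sub, map_mul]
      congr 2
    rw [h4, h5]
    ring
  have hc := congrArg (PowerSeries.coeff (m + 1)) hder
  rw [sub_mul, one_mul, map_sub, map_sub, PowerSeries.coeff_C_mul, pow_two, mul_assoc,
    PowerSeries.coeff_succ_X_mul, PowerSeries.coeff_succ_X_mul, PowerSeries.coeff_C_mul,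
    PowerSeries.coeff_derivative] at hc
  rw [kraw_eq_coeff, kraw_eq_coeff, kraw_eq_coeff, ← hG]
  rcases m with _ | m
  · rw [PowerSeries.coeff_zero_X_mul] at hc
    push_cast at hc ⊢
    linear_combination hc
  · rw [PowerSeries.coeff_succ_X_mul, PowerSeries.coeff_derivative] at hc
    push_cast at hc ⊢
    linear_combination hc

lemma serA_succ (x : ℝ) : serA (x + 1) = (1 - PowerSeries.X) * serA x := by
  ext n
  rw [sub_mul, one_mul, map_sub]
  rcases n with _ | n
  · rw [PowerSeries.coeff_zero_X_mul]
    simp [serA, PowerSeries.coeff_mk, binom_zero]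
  · rw [PowerSeries.coeff_succ_X_mul]
    simp only [serA, PowerSeries.coeff_mk]
    rw [binom_pascal]
    ring

lemma serB_succ (x : ℝ) : serB (x + 1) = (1 + PowerSeries.X) * serB x := by
  ext n
  rw [add_mul, one_mul, map_add]
  rcases n with _ | n
  · rw [PowerSeries.coeff_zero_X_mul]
    simp [serB, PowerSeries.coeff_mk, binom_zero]
  · rw [PowerSeries.coeff_succ_X_mul]
    simp only [serB, PowerSeries.coeff_mk]
    rw [binom_pascal]

/-- The difference formula. -/
lemma kraw_diff (m : ℕ) (N x : ℝ) :
    kraw (m + 1) N x - kraw (m + 1) N (x + 1) = 2 * kraw m (N - 1) x := by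
  have h : serA x * serB (N - x) - serA (x + 1) * serB (N - (x + 1)) =
      PowerSeries.X * (PowerSeries.C 2 * (serA x * serB (N - 1 - x))) := by
    have h1 : N - x = (N - 1 - x) + 1 := by ring
    have h2 : N - (x + 1) = N - 1 - x := by ring
    rw [h2, h1, serA_succ, serB_succ]
    have h3 : (PowerSeries.C (2 : ℝ) : PowerSeries ℝ) = 2 := rfl
    rw [h3]
    ring
  have hc := congrArg (PowerSeries.coeff (m + 1)) h
  rw [map_sub, PowerSeries.coeff_succ_X_mul, PowerSeries.coeff_C_mul, ← kraw_eq_coeff,
    ← kraw_eq_coeff, ← kraw_eq_coeff] at hc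
  exact hc

end Pool.Agent.Q170.Kraw
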