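import Pool.Agent.Q170.Kraw.Basic

open Finset

namespace Pool.Agent.Q170.Kraw

lemma edges_eq (k n a : ℕ) (ha : a ≤ n) :
    2 * (edges k n a : ℝ) = (n.choose (2 * k) : ℝ) - kraw (2 * k) n a := by
  have h1 : (n.choose (2 * k) : ℝ) = ∑ i ∈ range (2 * k + 1),
      ((a.choose i * (n - a).choose (2 * k - i) : ℕ) : ℝ) := by
    have h := Nat.add_choose_eq a (n - a) (2 * k)
    rw [show a + (n - a) = n by omega, Finset.Nat.sum_antidiagonal_eq_sum_range_succ_mk] at h
    rw [h]
    push_cast
    rfl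
  have h2 : kraw (2 * k) n a = ∑ i ∈ range (2 * k + 1),
      (-1 : ℝ) ^ i * ((a.choose i * (n - a).choose (2 * k - i) : ℕ) : ℝ) := by
    unfold kraw
    apply Finset.sum_congr rfl
    intro i _
    rw [← Nat.cast_sub ha, binom_natCast, binom_natCast]
    push_cast
    ring
  rw [h1, h2, ← Finset.sum_sub_distrib]
  unfold edges
  rw [Nat.cast_sum, Finset.mul_sum, Finset.sum_filter]
  apply Finset.sum_congr rfl
  intro i _
  split_ifs with h
  · rw [h.neg_one_pow]
    ring
  · rw [Nat.not_odd_iff_even] at h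
    rw [h.neg_one_pow]
    ring

lemma edges_symm (k n a : ℕ) (ha : a ≤ n) : edges k n (n - a) = edges k n a := by
  unfold edges
  rw [show n - (n - a) = a by omega]
  apply Finset.sum_nbij' (fun i => 2 * k - i) (fun i => 2 * k - i)
  · intro i hi
    rw [mem_filter, mem_range] at hi ⊢
    obtain ⟨h1, t, ht⟩ := hi
    exact ⟨by omega, k - t - 1, by omega⟩
  · intro i hi
    rw [mem_filter, mem_range] at hi ⊢
    obtain ⟨h1, t, ht⟩ := hi
    exact ⟨by omega, k - t - 1, by omega⟩
  · intro i hi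
    rw [mem_filter, mem_range] at hi
    omega
  · intro i hi
    rw [mem_filter, mem_range] at hi
    omega
  · intro i hi
    rw [mem_filter, mem_range] at hi
    rw [show 2 * k - (2 * k - i) = i by omega, mul_comm]

lemma edges_diff (k n a : ℕ) (ha : a + 1 ≤ n) :
    (edges (k + 1) n (a + 1) : ℝ) - edges (k + 1) n a = kraw (2 * k + 1) ((n : ℝ) - 1) a := by
  have h1 := edges_eq (k + 1) n (a + 1) ha
  have h2 := edges_eq (k + 1) n a (by omega)
  have h3 := kraw_diff (2 * k + 1) n a
  rw [show 2 * (k + 1) = 2 * k + 1 + 1 by ring] at h1 h2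
  push_cast at h1
  linarith

end Pool.Agent.Q170.Kraw
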