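import Pool.Agent.Q170.Kraw.Main

open Finset Filter Topology

namespace Pool.Agent.Q170.Kraw

lemma kraw_three (N x : ℝ) : 6 * kraw 3 N x =
    (N - 2 * x) * ((N - 2 * x) ^ 2 - (3 * N - 2)) := by
  have h2 := kraw_rec 0 N x
  have h3 := kraw_rec 1 N x
  rw [kraw_zero] at h2
  simp only [zero_add, kraw_one] at h2 h3
  push_cast at h2 h3
  norm_num at h2 h3
  linear_combination 2 * h3 + (N - 2 * x) * h2

lemma kraw_five (N x : ℝ) : 120 * kraw 5 N x =
    (N - 2 * x) * ((N - 2 * x) ^ 4 - 10 * (N - 2) * (N - 2 * x) ^ 2 +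
      (15 * N ^ 2 - 50 * N + 24)) := by
  have h2 := kraw_rec 0 N x
  have h3 := kraw_three N x
  have h4 := kraw_rec 2 N x
  have h5 := kraw_rec 3 N x
  rw [kraw_zero] at h2
  simp only [zero_add, kraw_one] at h2
  push_cast at h2 h4 h5
  norm_num at h2 h4 h5
  linear_combination 24 * h5 + 6 * (N - 2 * x) * h4 +
    ((N - 2 * x) ^ 2 - 4 * (N - 3)) * h3 - 3 * (N - 2 * x) * (N - 2) * h2

lemma isLeast_two (n : ℕ) (hn : 2 ≤ n) :
    IsLeast {x : ℝ | kraw 3 ((n : ℝ) - 1) x = 0} (((n : ℝ) - 1 - √(3 * n - 5)) / 2) := by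
  have hn' : (2 : ℝ) ≤ n := by exact_mod_cast hn
  have hsq : √(3 * (n : ℝ) - 5) ^ 2 = 3 * n - 5 := Real.sq_sqrt (by linarith)
  have hs0 : 0 ≤ √(3 * (n : ℝ) - 5) := Real.sqrt_nonneg _
  constructor
  · show kraw 3 ((n : ℝ) - 1) (((n : ℝ) - 1 - √(3 * n - 5)) / 2) = 0
    have h := kraw_three ((n : ℝ) - 1) (((n : ℝ) - 1 - √(3 * n - 5)) / 2)
    have e : (n : ℝ) - 1 - 2 * (((n : ℝ) - 1 - √(3 * n - 5)) / 2) = √(3 * n - 5) := by ring
    rw [e, hsq] at h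
    linarith
  · intro x hx
    have hx0 : kraw 3 ((n : ℝ) - 1) x = 0 := hx
    have h := kraw_three ((n : ℝ) - 1) x
    rw [hx0, mul_zero] at h
    by_contra hcon
    rw [not_le] at hcon
    have hy : √(3 * (n : ℝ) - 5) < (n : ℝ) - 1 - 2 * x := by linarith
    have hy0 : 0 < (n : ℝ) - 1 - 2 * x := by linarith
    have h2 := (mul_eq_zero.mp h.symm).resolve_left hy0.ne'
    nlinarith

lemma isLeast_three (n : ℕ) (hn : 3 ≤ n) :
    IsLeast {x : ℝ | kraw 5 ((n : ℝ) - 1) x = 0}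
      (((n : ℝ) - 1 - √(5 * n - 15 + √(10 * n ^ 2 - 70 * n + 136))) / 2) := by
  have hn' : (3 : ℝ) ≤ n := by exact_mod_cast hn
  set D : ℝ := √(10 * (n : ℝ) ^ 2 - 70 * n + 136) with hD
  have hDsq : D ^ 2 = 10 * (n : ℝ) ^ 2 - 70 * n + 136 := Real.sq_sqrt (by nlinarith [sq_nonneg ((n : ℝ) - 3.5)])
  have hD0 : 0 ≤ D := Real.sqrt_nonneg _
  have hsq : √(5 * (n : ℝ) - 15 + D) ^ 2 = 5 * n - 15 + D := Real.sq_sqrt (by linarith)
  have hs0 : 0 ≤ √(5 * (n : ℝ) - 15 + D) := Real.sqrt_nonneg _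
  constructor
  · show kraw 5 ((n : ℝ) - 1) (((n : ℝ) - 1 - √(5 * (n : ℝ) - 15 + D)) / 2) = 0
    have h := kraw_five ((n : ℝ) - 1) (((n : ℝ) - 1 - √(5 * (n : ℝ) - 15 + D)) / 2)
    have e : (n : ℝ) - 1 - 2 * (((n : ℝ) - 1 - √(5 * (n : ℝ) - 15 + D)) / 2) =
      √(5 * (n : ℝ) - 15 + D) := by ring
    rw [e] at h
    have e4 : √(5 * (n : ℝ) - 15 + D) ^ 4 = (5 * n - 15 + D) ^ 2 := by
      have e6 : √(5 * (n : ℝ) - 15 + D) ^ 4 = (√(5 * (n : ℝ) - 15 + D) ^ 2) ^ 2 := by ring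
      rw [e6, hsq]
    rw [e4, hsq] at h
    have e5 : (5 * (n : ℝ) - 15 + D) ^ 2 - 10 * ((n : ℝ) - 1 - 2) * (5 * n - 15 + D) +
        (15 * ((n : ℝ) - 1) ^ 2 - 50 * (n - 1) + 24) = 0 := by
      linear_combination hDsq
    rw [e5, mul_zero] at h
    linarith
  · intro x hx
    have hx0 : kraw 5 ((n : ℝ) - 1) x = 0 := hx
    have h := kraw_five ((n : ℝ) - 1) x
    rw [hx0, mul_zero] at h
    by_contra hcon
    rw [not_le] at hcon
    have hy : √(5 * (n : ℝ) - 15 + D) < (n : ℝ) - 1 - 2 * x := by linarith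
    have hy0 : 0 < (n : ℝ) - 1 - 2 * x := by linarith
    have h2 := (mul_eq_zero.mp h.symm).resolve_left hy0.ne'
    have hy2 : 5 * (n : ℝ) - 15 + D < ((n : ℝ) - 1 - 2 * x) ^ 2 := by nlinarith
    set t : ℝ := ((n : ℝ) - 1 - 2 * x) ^ 2 with ht
    have ht4 : ((n : ℝ) - 1 - 2 * x) ^ 4 = t ^ 2 := by rw [ht]; ring
    rw [ht4] at h2
    have h3 : (t - (5 * (n : ℝ) - 15)) ^ 2 = D ^ 2 := by
      linear_combination h2 + hDsq * (-1)
    nlinarith

theorem main :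
    (∀ k : ℕ, 2 ≤ k → ∃ n₀ : ℕ, ∀ n : ℕ, n₀ ≤ n →
      IsLeast {x : ℝ | kraw (2 * k - 1) ((n : ℝ) - 1) x = 0} (smallestZero k n) ∧
      maximisers k n = {a : ℕ | a ≤ n ∧
        ((smallestZero k n ≤ (a : ℝ) ∧ (a : ℝ) ≤ smallestZero k n + 1) ∨
          (smallestZero k n ≤ (n : ℝ) - a ∧ (n : ℝ) - a ≤ smallestZero k n + 1))}) ∧
    (∀ k : ℕ, 2 ≤ k → ∃ y : ℝ,
      IsGreatest {y : ℝ | Polynomial.aeval y (Polynomial.hermite (2 * k - 1)) = 0} y ∧ 0 < y ∧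
      Tendsto (fun n : ℕ => ((n : ℝ) / 2 - smallestZero k n) / √(n : ℝ)) atTop (𝓝 (y / 2))) ∧
    (∀ n : ℕ, 2 ≤ n → smallestZero 2 n = ((n : ℝ) - 1 - √(3 * n - 5)) / 2) ∧
    (∀ n : ℕ, 3 ≤ n → smallestZero 3 n =
      ((n : ℝ) - 1 - √(5 * n - 15 + √(10 * n ^ 2 - 70 * n + 136))) / 2) := by
  refine ⟨?_, ?_, ?_, ?_⟩
  · intro k hk
    obtain ⟨j, rfl⟩ : ∃ j, k = j + 2 := ⟨k - 2, by omega⟩
    obtain ⟨y₀, hy₀, h0, hpos⟩ := exists_largest (2 * j + 1)
    have h := key j y₀ hy₀ h0 hpos 1 one_pos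
    rw [eventually_atTop] at h
    obtain ⟨n₀, hn₀⟩ := h
    refine ⟨n₀, fun n hn => ?_⟩
    obtain ⟨ξ, _, hleast, hmax⟩ := hn₀ n hn
    have e : 2 * (j + 2) - 1 = 2 * j + 3 := by omega
    have hξ : smallestZero (j + 2) n = ξ := by
      unfold smallestZero
      rw [e]
      exact hleast.csInf_eq
    rw [hξ, e]
    exact ⟨hleast, hmax⟩
  · intro k hk
    obtain ⟨j, rfl⟩ : ∃ j, k = j + 2 := ⟨k - 2, by omega⟩
    obtain ⟨y₀, hy₀, h0, hpos⟩ := exists_largest (2 * j + 1)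
    have e : 2 * (j + 2) - 1 = 2 * j + 3 := by omega
    refine ⟨y₀, ?_, hy₀, ?_⟩
    · rw [e]
      constructor
      · show Polynomial.aeval y₀ (Polynomial.hermite (2 * j + 3)) = 0
        rw [← (herm_eq_hermite (2 * j + 3) y₀).1]
        exact h0
      · intro z hz
        by_contra hcon
        rw [not_le] at hcon
        have h1 : Polynomial.aeval z (Polynomial.hermite (2 * j + 3)) = 0 := hz
        rw [← (herm_eq_hermite (2 * j + 3) z).1] at h1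
        have h2 : 0 < herm (2 * j + 3) z := hpos z hcon
        linarith
    · have h1 : Tendsto (fun n : ℕ => ((n : ℝ) - 1 - 2 * smallestZero (j + 2) n) / √(n : ℝ))
          atTop (𝓝 y₀) := by
        rw [Metric.tendsto_nhds]
        intro r hr
        have h := key j y₀ hy₀ h0 hpos r hr
        filter_upwards [h] with n hn
        obtain ⟨ξ, hξr, hleast, _⟩ := hn
        have hξ : smallestZero (j + 2) n = ξ := by
          unfold smallestZero
          rw [e]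
          exact hleast.csInf_eq
        rw [hξ, Real.dist_eq]
        exact hξr
      have h2 : Tendsto (fun n : ℕ => 1 / √(n : ℝ)) atTop (𝓝 0) := by
        have hsqrt : Tendsto (fun n : ℕ => √(n : ℝ)) atTop atTop :=
          Real.tendsto_sqrt_atTop.comp tendsto_natCast_atTop_atTop
        simp only [one_div]
        exact hsqrt.inv_tendsto_atTop
      have h3 := (h1.add h2).div_const 2
      rw [add_zero] at h3
      refine h3.congr fun n => ?_
      ring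
  · intro n hn
    unfold smallestZero
    exact (isLeast_two n hn).csInf_eq
  · intro n hn
    unfold smallestZero
    exact (isLeast_three n hn).csInf_eq

end Pool.Agent.Q170.Kraw
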