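import Pool.Agent.Q170.Kraw.Rfun

open Finset Filter Topology

namespace Pool.Agent.Q170.Kraw

lemma exists_neg (m : ℕ) : ∃ y > 0, herm (m + 2) y < 0 := by
  induction m with
  | zero =>
    refine ⟨1 / 2, by norm_num, ?_⟩
    rw [herm_rec, herm_zero, herm_one]
    norm_num
  | succ m ih =>
    obtain ⟨y₁, hy₁, hneg⟩ := ih
    set y₂ : ℝ := max (y₁ + 1) ((m : ℝ) + 4) with hy₂
    have h12 : y₁ < y₂ := by
      have := le_max_left (y₁ + 1) ((m : ℝ) + 4)
      linarith
    have hpos : 0 < herm (m + 2) y₂ := by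
      have h := herm_ge_one (m + 2) y₂ (by
        push_cast
        have := le_max_right (y₁ + 1) ((m : ℝ) + 4)
        linarith)
      linarith
    -- mean value theorem for `herm * exp(-y^2/2)`
    set g : ℝ → ℝ := fun y => herm (m + 2) y * Real.exp (-(y ^ 2 / 2)) with hg
    have hder : ∀ y, HasDerivAt g (-(herm (m + 3) y) * Real.exp (-(y ^ 2 / 2))) y := by
      intro y
      have h1 := hasDerivAt_herm (m + 1) y
      have h2 : HasDerivAt (fun y : ℝ => Real.exp (-(y ^ 2 / 2)))
          (Real.exp (-(y ^ 2 / 2)) * (-y)) y := by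
        apply HasDerivAt.exp
        have h3 := ((hasDerivAt_pow 2 y).div_const 2).neg
        refine h3.congr_deriv ?_
        simp
      have h4 := h1.mul h2
      refine h4.congr_deriv ?_
      have hr : herm (m + 3) y = y * herm (m + 2) y - ((m : ℝ) + 2) * herm (m + 1) y := by
        have h5 := herm_rec (m + 1) y
        have e1 : herm (m + 1 + 2) y = herm (m + 3) y := rfl
        have e2 : herm (m + 1 + 1) y = herm (m + 2) y := rfl
        rw [e1, e2] at h5
        rw [h5]
        push_cast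
        ring
      have e2 : herm (m + 1 + 1) y = herm (m + 2) y := rfl
      rw [e2, hr]
      push_cast
      ring
    have hcont : ContinuousOn g (Set.Icc y₁ y₂) := fun y _ => (hder y).continuousAt.continuousWithinAt
    obtain ⟨z, hz, hz2⟩ := exists_hasDerivAt_eq_slope g _ h12 hcont (fun y _ => hder y)
    have hslope : 0 < (g y₂ - g y₁) / (y₂ - y₁) := by
      apply div_pos
      · have h5 : 0 < g y₂ := mul_pos hpos (Real.exp_pos _)
        have h6 : g y₁ < 0 := mul_neg_of_neg_of_pos hneg (Real.exp_pos _)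
        linarith
      · linarith
    refine ⟨z, by linarith [hz.1], ?_⟩
    rw [← hz2] at hslope
    by_contra hcon
    rw [not_lt] at hcon
    have : -(herm (m + 1 + 2) z) * Real.exp (-(z ^ 2 / 2)) ≤ 0 :=
      mul_nonpos_of_nonpos_of_nonneg (by linarith) (Real.exp_pos _).le
    have h7 : (m + 3) = m + 1 + 2 := by ring
    rw [h7] at hslope
    linarith

/-- Existence of the largest zero of `herm (m+2)`. -/
lemma exists_largest (m : ℕ) : ∃ y > 0, herm (m + 2) y = 0 ∧ ∀ z > y, 0 < herm (m + 2) z := by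
  obtain ⟨y₁, hy₁, hneg⟩ := exists_neg m
  set B : ℝ := max (y₁ + 1) ((m : ℝ) + 4) with hB
  have hBbig : ∀ z, B ≤ z → 0 < herm (m + 2) z := by
    intro z hz
    have h := herm_ge_one (m + 2) z (by
      push_cast
      have := le_max_right (y₁ + 1) ((m : ℝ) + 4)
      linarith)
    linarith
  have h1B : y₁ < B := by
    have := le_max_left (y₁ + 1) ((m : ℝ) + 4)
    linarith
  set K : Set ℝ := Set.Icc y₁ B ∩ (herm (m + 2)) ⁻¹' {0} with hK
  have hKc : IsCompact K := isCompact_Icc.inter_right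
    ((isClosed_singleton).preimage (continuous_herm (m + 2)))
  have hKne : K.Nonempty := by
    have := intermediate_value_Icc h1B.le (continuous_herm (m + 2)).continuousOn
    obtain ⟨z, hz, hz0⟩ := this (show (0 : ℝ) ∈ Set.Icc (herm (m + 2) y₁) (herm (m + 2) B) from
      ⟨hneg.le, (hBbig B le_rfl).le⟩)
    exact ⟨z, hz, hz0⟩
  obtain ⟨y, hyK, hymax⟩ := hKc.exists_isGreatest hKne
  refine ⟨y, lt_of_lt_of_le hy₁ hyK.1.1, hyK.2, fun z hz => ?_⟩
  by_contra hcon
  rw [not_lt] at hcon
  have hzB : z < B := by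
    by_contra h
    rw [not_lt] at h
    exact absurd (hBbig z h) (not_lt.mpr hcon)
  have := intermediate_value_Icc hzB.le (continuous_herm (m + 2)).continuousOn
  obtain ⟨w, hw, hw0⟩ := this (show (0 : ℝ) ∈ Set.Icc (herm (m + 2) z) (herm (m + 2) B) from
    ⟨hcon, (hBbig B le_rfl).le⟩)
  have hwK : w ∈ K := ⟨⟨by linarith [hyK.1.1, hw.1], hw.2⟩, hw0⟩
  have := hymax hwK
  linarith [hw.1]

lemma herm_zeros_finite (m : ℕ) : {y : ℝ | herm m y = 0}.Finite := by
  have h : {y : ℝ | herm m y = 0} ⊆ ((Polynomial.hermite m).rootSet ℝ) := by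
    intro y hy
    rw [Polynomial.mem_rootSet]
    refine ⟨(Polynomial.hermite_monic m).ne_zero, ?_⟩
    rw [← (herm_eq_hermite m y).1]
    exact hy
  exact (Polynomial.rootSet_finite _ _).subset h

/-- The Sonin function. -/
noncomputable def sonin (m : ℕ) (y : ℝ) : ℝ :=
  herm (m + 1) y ^ 2 + ((m : ℝ) + 1) * herm m y ^ 2

lemma hasDerivAt_sonin (m : ℕ) (y : ℝ) :
    HasDerivAt (sonin (m + 1)) (2 * ((m : ℝ) + 2) * y * herm (m + 1) y ^ 2) y := by
  have h1 := (hasDerivAt_herm (m + 1) y).pow 2
  have h2 := ((hasDerivAt_herm m y).pow 2).const_mul (((m + 1 : ℕ) : ℝ) + 1)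
  have h := h1.add h2
  unfold sonin
  refine h.congr_deriv ?_
  rw [herm_rec]
  push_cast
  ring

lemma sonin_mono (m : ℕ) : MonotoneOn (sonin (m + 1)) (Set.Ici 0) := by
  apply monotoneOn_of_deriv_nonneg (convex_Ici 0)
  · exact fun y _ => (hasDerivAt_sonin m y).continuousAt.continuousWithinAt
  · exact fun y _ => (hasDerivAt_sonin m y).differentiableAt.differentiableWithinAt
  · intro y hy
    rw [interior_Ici] at hy
    rw [(hasDerivAt_sonin m y).deriv]
    have : 0 < y := hy
    positivity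

lemma sonin_strict (m : ℕ) {y z : ℝ} (hy : 0 ≤ y) (hyz : y < z) :
    sonin (m + 1) y < sonin (m + 1) z := by
  have hle := sonin_mono m (Set.mem_Ici.mpr hy) (Set.mem_Ici.mpr (by linarith)) hyz.le
  rcases lt_or_eq_of_le hle with h | h
  · exact h
  · exfalso
    -- constant on `[y, z]`, so `herm (m+1)` vanishes on the interior
    have hsub : Set.Ioo y z ⊆ {t : ℝ | herm (m + 1) t = 0} := by
      intro t ht
      have hconst : ∀ t ∈ Set.Ioo y z, sonin (m + 1) t = sonin (m + 1) y := by
        intro t ht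
        apply le_antisymm
        · rw [h]
          exact sonin_mono m (Set.mem_Ici.mpr (by linarith [ht.1]))
            (Set.mem_Ici.mpr (by linarith)) ht.2.le
        · exact sonin_mono m (Set.mem_Ici.mpr hy) (Set.mem_Ici.mpr (by linarith [ht.1])) ht.1.le
      have hev : sonin (m + 1) =ᶠ[𝓝 t] fun _ => sonin (m + 1) y := by
        filter_upwards [Ioo_mem_nhds ht.1 ht.2] with s hs
        exact hconst s hs
      have hd : deriv (sonin (m + 1)) t = 0 := by
        rw [hev.deriv_eq]
        simp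
      rw [(hasDerivAt_sonin m t).deriv] at hd
      have ht0 : 0 < t := by linarith [ht.1]
      have hm0 : (0 : ℝ) < (m : ℝ) + 2 := by positivity
      have : herm (m + 1) t ^ 2 = 0 := by
        by_contra hne
        apply hne
        have h5 : 2 * ((m : ℝ) + 2) * t ≠ 0 := by positivity
        exact (mul_eq_zero.mp hd).resolve_left h5
      exact pow_eq_zero_iff (two_ne_zero) |>.mp this
    exact (Set.Ioo_infinite hyz) ((herm_zeros_finite (m + 1)).subset hsub)

/-- At the largest critical point `y₀` of `herm (m+3)`, the value is negative. -/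
lemma herm_at_largest (m : ℕ) (y₀ : ℝ) (hy₀ : 0 < y₀) (h0 : herm (m + 2) y₀ = 0)
    (hpos : ∀ z > y₀, 0 < herm (m + 2) z) : herm (m + 3) y₀ < 0 := by
  by_contra hcon
  rw [not_lt] at hcon
  have hrec : herm (m + 3) y₀ = -((m : ℝ) + 2) * herm (m + 1) y₀ := by
    rw [show m + 3 = (m + 1) + 2 by ring, herm_rec, show m + 1 + 1 = m + 2 by ring, h0]
    push_cast
    ring
  rcases lt_or_eq_of_le hcon with h | h
  · -- derivative of `herm (m+2)` at `y₀` is negative
    have hd := hasDerivAt_herm (m + 1) y₀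
    have hneg : ((m + 1 : ℕ) : ℝ) + 1 > 0 := by positivity
    have h1 : herm (m + 1) y₀ < 0 := by
      rw [hrec] at h
      by_contra hc
      rw [not_lt] at hc
      have : 0 ≤ ((m : ℝ) + 2) * herm (m + 1) y₀ := by positivity
      linarith
    have h2 : (((m + 1 : ℕ) : ℝ) + 1) * herm (m + 1) y₀ < 0 := mul_neg_of_pos_of_neg hneg h1
    have h3 := hd.eventually_ne h2.ne (c := 0)
    -- use the slope
    have h4 : ∀ᶠ z in 𝓝[>] y₀, slope (herm (m + 2)) y₀ z < 0 := by
      have h5 := hd.tendsto_slope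
      have h6 : ∀ᶠ z in 𝓝[≠] y₀, slope (herm (m + 2)) y₀ z < 0 :=
        h5.eventually (gt_mem_nhds h2)
      exact h6.filter_mono (nhdsWithin_mono _ (fun z hz => ne_of_gt hz))
    obtain ⟨z, hz, hz2⟩ := (h4.and self_mem_nhdsWithin).exists
    have hz3 : y₀ < z := hz2
    rw [slope_def_field, h0, sub_zero] at hz
    have := div_pos (hpos z hz3) (sub_pos.mpr hz3)
    linarith
  · have h1 : herm (m + 1) y₀ = 0 := by
      have hm : (m : ℝ) + 2 ≠ 0 := by positivity
      rw [hrec] at h
      have h5 : ((m : ℝ) + 2) * herm (m + 1) y₀ = 0 := by linarith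
      exact (mul_eq_zero.mp h5).resolve_left hm
    have hs : sonin (m + 1) y₀ = 0 := by
      unfold sonin
      rw [show m + 1 + 1 = m + 2 by ring, h0, h1]
      ring
    have h6 := sonin_strict m le_rfl hy₀
    rw [hs] at h6
    have h7 : 0 ≤ sonin (m + 1) 0 := by
      unfold sonin
      positivity
    linarith

/-- `±y₀` are the only global minimum points of `herm (m+3)` on `[0, ∞)`. -/
lemma herm_min (m : ℕ) (y₀ : ℝ) (hy₀ : 0 < y₀) (h0 : herm (m + 2) y₀ = 0)
    (hpos : ∀ z > y₀, 0 < herm (m + 2) z) (y : ℝ) (hy : 0 ≤ y) (hne : y ≠ y₀) :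
    herm (m + 3) y₀ < herm (m + 3) y := by
  rcases lt_or_gt_of_ne hne with h | h
  · have hneg := herm_at_largest m y₀ hy₀ h0 hpos
    have h1 := sonin_strict (m + 1) hy h
    have h2 : sonin (m + 1 + 1) y₀ = herm (m + 3) y₀ ^ 2 := by
      unfold sonin
      rw [show m + 1 + 1 = m + 2 by ring, h0]
      ring
    have h3 : herm (m + 3) y ^ 2 ≤ sonin (m + 1 + 1) y := by
      unfold sonin
      have : 0 ≤ (((m + 1 + 1 : ℕ) : ℝ) + 1) * herm (m + 1 + 1) y ^ 2 := by positivity
      have h5 : herm (m + 1 + 1 + 1) y = herm (m + 3) y := rfl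
      rw [h5]
      linarith
    have h4 : herm (m + 3) y ^ 2 < (-herm (m + 3) y₀) ^ 2 := by
      rw [neg_sq]
      linarith
    have h5 := abs_lt_of_sq_lt_sq h4 (by linarith)
    rw [abs_lt] at h5
    linarith [h5.1]
  · have hmono : StrictMonoOn (herm (m + 3)) (Set.Ici y₀) := by
      apply strictMonoOn_of_deriv_pos (convex_Ici y₀) (continuous_herm _).continuousOn
      intro z hz
      rw [interior_Ici] at hz
      have h1 := (hasDerivAt_herm (m + 2) z).deriv
      rw [h1]
      have := hpos z hz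
      positivity
    exact hmono (Set.mem_Ici.mpr le_rfl) (Set.mem_Ici.mpr h.le) h

end Pool.Agent.Q170.Kraw
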