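import Pool.Agent.Q170.Kraw.Herm

open Finset Filter Topology

namespace Pool.Agent.Q170.Kraw

lemma eventually_growth (c : ℝ) (hc : 0 ≤ c) (M : ℕ) : ∀ᶠ δ in 𝓝[>] (0 : ℝ),
    ∀ η, (M : ℝ) + 2 ≤ η → 1 ≤ R c M δ η := by
  have h1 : ∀ᶠ δ in 𝓝 (0 : ℝ), ((M : ℝ) + c) * δ < 1 := by
    have hcont : Continuous (fun δ : ℝ => ((M : ℝ) + c) * δ) := by fun_prop
    have := hcont.tendsto 0
    rw [mul_zero] at this
    exact this.eventually (gt_mem_nhds one_pos)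
  filter_upwards [h1.filter_mono nhdsWithin_le_nhds, self_mem_nhdsWithin] with δ h2 h3
  intro η hη
  exact (R_growth c δ η M hc (le_of_lt h3) h2.le hη M le_rfl).1

lemma eventually_R1 (m : ℕ) (y₀ : ℝ) (hy₀ : 0 < y₀) (h0 : herm (m + 2) y₀ = 0)
    (hpos : ∀ z > y₀, 0 < herm (m + 2) z) (r₀ : ℝ) (hr₀ : 0 < r₀) :
    ∃ r, 0 < r ∧ r < r₀ ∧ ∀ᶠ δ in 𝓝[>] (0 : ℝ), ∃ ζ, |ζ - y₀| < r ∧ R 1 (m + 2) δ ζ = 0 ∧
      (∀ η, ζ < η → 0 < R 1 (m + 2) δ η) ∧
      (∀ η, y₀ - r ≤ η → η < ζ → R 1 (m + 2) δ η < 0) := by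
  have hcR := (continuous_R 1 (m + 2)).1
  have hcR' := (continuous_R' 1 (m + 2)).1
  -- the derivative at `y₀` is positive
  have hd0 : 0 < R' 1 (m + 2) 0 y₀ := by
    have h1 := (R'_at_zero 1 y₀ m).2
    rw [h1]
    have h2 := herm_at_largest m y₀ hy₀ h0 hpos
    have h3 := herm_rec (m + 1) y₀
    have e1 : herm (m + 1 + 2) y₀ = herm (m + 3) y₀ := rfl
    have e2 : herm (m + 1 + 1) y₀ = herm (m + 2) y₀ := rfl
    rw [e1, e2, h0] at h3
    push_cast at h3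
    linarith
  have hopen : IsOpen {p : ℝ × ℝ | 0 < R' 1 (m + 2) p.1 p.2} := isOpen_lt continuous_const hcR'
  obtain ⟨ε, hε, hball⟩ := Metric.isOpen_iff.mp hopen (0, y₀) hd0
  set r : ℝ := min ε r₀ / 2 with hr
  have hrpos : 0 < r := by
    have := lt_min hε hr₀
    linarith
  have hrε : r < ε := by
    have := min_le_left ε r₀
    linarith
  have hrr : r < r₀ := by
    have := min_le_right ε r₀
    linarith
  have hder : ∀ δ, |δ| < ε → ∀ η ∈ Set.Icc (y₀ - r) (y₀ + r), 0 < R' 1 (m + 2) δ η := by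
    intro δ hδ η hη
    have : (δ, η) ∈ Metric.ball ((0 : ℝ), y₀) ε := by
      rw [Metric.mem_ball, Prod.dist_eq, max_lt_iff, Real.dist_eq, Real.dist_eq]
      refine ⟨by simpa using hδ, ?_⟩
      rw [abs_lt]
      exact ⟨by linarith [hη.1], by linarith [hη.2]⟩
    exact hball this
  have hmono : ∀ δ, |δ| < ε → StrictMonoOn (fun η => R 1 (m + 2) δ η)
      (Set.Icc (y₀ - r) (y₀ + r)) := by
    intro δ hδ
    apply strictMonoOn_of_deriv_pos (convex_Icc _ _)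
    · exact fun η _ => (hasDerivAt_R 1 δ η (m + 2)).1.continuousAt.continuousWithinAt
    · intro η hη
      rw [interior_Icc] at hη
      rw [(hasDerivAt_R 1 δ η (m + 2)).1.deriv]
      exact hder δ hδ η ⟨hη.1.le, hη.2.le⟩
  have hz0 : R 1 (m + 2) 0 y₀ = 0 := by
    rw [(R_at_zero 1 y₀ (m + 2)).1]
    exact h0
  have hlow : R 1 (m + 2) 0 (y₀ - r) < 0 := by
    have h1 := hmono 0 (by simpa using hε) (a := y₀ - r) ⟨le_rfl, by linarith⟩
      (b := y₀) ⟨by linarith, by linarith⟩ (by linarith)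
    simp only at h1
    rw [hz0] at h1
    exact h1
  have hev1 : ∀ᶠ δ in 𝓝 (0 : ℝ), R 1 (m + 2) δ (y₀ - r) < 0 := by
    have hc : Continuous (fun δ : ℝ => R 1 (m + 2) δ (y₀ - r)) :=
      hcR.comp (continuous_id.prodMk continuous_const)
    exact (hc.tendsto 0).eventually (gt_mem_nhds hlow)
  have hev2 : ∀ᶠ δ in 𝓝 (0 : ℝ), ∀ η ∈ Set.Icc (y₀ + r) (((m + 2 : ℕ) : ℝ) + 2 + y₀ + r),
      0 < R 1 (m + 2) δ η := by
    apply IsCompact.eventually_forall_of_forall_eventually isCompact_Icc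
    intro η hη
    have h1 : 0 < R 1 (m + 2) 0 η := by
      rw [(R_at_zero 1 η (m + 2)).1]
      exact hpos η (by linarith [hη.1])
    exact (hcR.tendsto (0, η)).eventually (lt_mem_nhds h1)
  have hev3 : ∀ᶠ δ in 𝓝 (0 : ℝ), |δ| < ε := by
    have hc : Continuous (fun δ : ℝ => |δ|) := continuous_abs
    have := hc.tendsto 0
    rw [abs_zero] at this
    exact this.eventually (gt_mem_nhds hε)
  refine ⟨r, hrpos, hrr, ?_⟩
  filter_upwards [hev1.filter_mono nhdsWithin_le_nhds, hev2.filter_mono nhdsWithin_le_nhds,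
    hev3.filter_mono nhdsWithin_le_nhds, eventually_growth 1 zero_le_one (m + 2)] with
    δ h1 h2 h3 h4
  have hM : (0 : ℝ) ≤ ((m + 2 : ℕ) : ℝ) := Nat.cast_nonneg _
  have hup : 0 < R 1 (m + 2) δ (y₀ + r) := h2 _ ⟨le_rfl, by linarith⟩
  have hcδ : ContinuousOn (fun η => R 1 (m + 2) δ η) (Set.Icc (y₀ - r) (y₀ + r)) :=
    fun η _ => (hasDerivAt_R 1 δ η (m + 2)).1.continuousAt.continuousWithinAt
  have hle : y₀ - r ≤ y₀ + r := by linarith
  obtain ⟨ζ, hζ, hζ0⟩ := intermediate_value_Ioo hle hcδ (show (0 : ℝ) ∈ Set.Ioo _ _ from ⟨h1, hup⟩)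
  simp only at hζ0
  refine ⟨ζ, ?_, hζ0, ?_, ?_⟩
  · rw [abs_lt]
    exact ⟨by linarith [hζ.1], by linarith [hζ.2]⟩
  · intro η hη
    rcases le_or_gt η (y₀ + r) with h | h
    · have h5 := hmono δ h3 (a := ζ) ⟨hζ.1.le, hζ.2.le⟩ (b := η) ⟨by linarith [hζ.1], h⟩ hη
      simp only at h5
      rw [hζ0] at h5
      exact h5
    · rcases le_or_gt η (((m + 2 : ℕ) : ℝ) + 2 + y₀ + r) with h6 | h6
      · exact h2 η ⟨h.le, h6⟩
      · have := h4 η (by linarith)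
        linarith
  · intro η hη1 hη2
    have h5 := hmono δ h3 (a := η) ⟨hη1, by linarith [hζ.2]⟩ (b := ζ) ⟨hζ.1.le, hζ.2.le⟩ hη2
    simp only at h5
    rw [hζ0] at h5
    exact h5

lemma eventually_R0 (m : ℕ) (y₀ : ℝ) (hy₀ : 0 < y₀) (h0 : herm (m + 2) y₀ = 0)
    (hpos : ∀ z > y₀, 0 < herm (m + 2) z) (r : ℝ) (hr : 0 < r) :
    ∃ c ρ : ℝ, 0 < ρ ∧ ∀ᶠ δ in 𝓝[>] (0 : ℝ),
      (∀ η, 0 ≤ η → r ≤ |η - y₀| → c < R 0 (m + 3) δ η) ∧
      (∀ η, |η - y₀| < ρ → R 0 (m + 3) δ η < c) := by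
  have hcR := (continuous_R 0 (m + 3)).1
  have hμ := herm_at_largest m y₀ hy₀ h0 hpos
  set B : ℝ := ((m + 3 : ℕ) : ℝ) + 2 with hB
  set K : Set ℝ := Set.Icc 0 B ∩ {η | r ≤ |η - y₀|} with hK
  have hKc : IsCompact K := by
    apply isCompact_Icc.inter_right
    exact isClosed_le continuous_const (by fun_prop)
  have hKgt : ∀ η ∈ K, herm (m + 3) y₀ < herm (m + 3) η := by
    intro η hη
    apply herm_min m y₀ hy₀ h0 hpos η hη.1.1
    rintro rfl
    have : r ≤ |η - η| := hη.2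
    rw [sub_self, abs_zero] at this
    linarith
  obtain ⟨c, hc1, hc2, hc3⟩ : ∃ c, herm (m + 3) y₀ < c ∧ c < 1 ∧ ∀ η ∈ K, c < herm (m + 3) η := by
    rcases K.eq_empty_or_nonempty with h | h
    · refine ⟨0, hμ, by norm_num, ?_⟩
      intro η hη
      rw [h] at hη
      exact absurd hη (Set.notMem_empty _)
    · obtain ⟨η₁, hη₁, hmin⟩ := hKc.exists_isMinOn h (continuous_herm (m + 3)).continuousOn
      have h1 := hKgt η₁ hη₁
      refine ⟨(herm (m + 3) y₀ + min (herm (m + 3) η₁) 0) / 2, ?_, ?_, ?_⟩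
      · have : herm (m + 3) y₀ < min (herm (m + 3) η₁) 0 := lt_min h1 hμ
        linarith
      · have := min_le_right (herm (m + 3) η₁) 0
        linarith
      · intro η hη
        have h2 := hmin hη
        have h3 : herm (m + 3) η₁ ≤ herm (m + 3) η := h2
        have h4 : herm (m + 3) y₀ < min (herm (m + 3) η₁) 0 := lt_min h1 hμ
        have h5 := min_le_left (herm (m + 3) η₁) 0
        linarith
  have hev1 : ∀ᶠ δ in 𝓝 (0 : ℝ), ∀ η ∈ K, c < R 0 (m + 3) δ η := by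
    apply IsCompact.eventually_forall_of_forall_eventually hKc
    intro η hη
    have h1 : c < R 0 (m + 3) 0 η := hc3 η hη
    exact (hcR.tendsto (0, η)).eventually (lt_mem_nhds h1)
  have hopen : IsOpen {p : ℝ × ℝ | R 0 (m + 3) p.1 p.2 < c} := isOpen_lt hcR continuous_const
  obtain ⟨ρ, hρ, hball⟩ := Metric.isOpen_iff.mp hopen (0, y₀) hc1
  have hev3 : ∀ᶠ δ in 𝓝 (0 : ℝ), |δ| < ρ := by
    have hc : Continuous (fun δ : ℝ => |δ|) := continuous_abs
    have := hc.tendsto 0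
    rw [abs_zero] at this
    exact this.eventually (gt_mem_nhds hρ)
  refine ⟨c, ρ, hρ, ?_⟩
  filter_upwards [hev1.filter_mono nhdsWithin_le_nhds, hev3.filter_mono nhdsWithin_le_nhds,
    eventually_growth 0 le_rfl (m + 3)] with δ h1 h3 h4
  refine ⟨?_, ?_⟩
  · intro η hη hηr
    rcases le_or_gt η B with h | h
    · exact h1 η ⟨⟨hη, h⟩, hηr⟩
    · have := h4 η h.le
      linarith
  · intro η hη
    have : (δ, η) ∈ Metric.ball ((0 : ℝ), y₀) ρ := by
      rw [Metric.mem_ball, Prod.dist_eq, max_lt_iff, Real.dist_eq, Real.dist_eq]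
      exact ⟨by simpa using h3, hη⟩
    exact hball this

end Pool.Agent.Q170.Kraw
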