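import Pool.Agent.Q170.Kraw.Local
import Pool.Agent.Q170.Kraw.Edges

open Finset Filter Topology

namespace Pool.Agent.Q170.Kraw

/-- The real quantity of which the optimal part size is the rounding: the smallest real zero of
the Krawtchouk polynomial `K_{2k-1}(x; n-1)`. -/
noncomputable def smallestZero (k n : ℕ) : ℝ := sInf {x : ℝ | kraw (2 * k - 1) ((n : ℝ) - 1) x = 0}

lemma maximisers_nonempty (k n : ℕ) : (maximisers k n).Nonempty := by
  obtain ⟨a, ha, hmax⟩ := Finset.exists_max_image (range (n + 1)) (edges k n)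
    ⟨0, by simp⟩
  rw [mem_range] at ha
  exact ⟨a, by omega, fun b hb => hmax b (by rw [mem_range]; omega)⟩

lemma maximisers_symm {k n a : ℕ} (ha : a ∈ maximisers k n) : n - a ∈ maximisers k n := by
  obtain ⟨h1, h2⟩ := ha
  refine ⟨by omega, fun b hb => ?_⟩
  rw [edges_symm k n a h1]
  exact h2 b hb

lemma key (j : ℕ) (y₀ : ℝ) (hy₀ : 0 < y₀) (h0 : herm (2 * j + 3) y₀ = 0)
    (hpos : ∀ z > y₀, 0 < herm (2 * j + 3) z) (r₀ : ℝ) (hr₀ : 0 < r₀) :
    ∀ᶠ n : ℕ in atTop, ∃ ξ : ℝ, |((n : ℝ) - 1 - 2 * ξ) / √(n : ℝ) - y₀| < r₀ ∧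
      IsLeast {x : ℝ | kraw (2 * j + 3) ((n : ℝ) - 1) x = 0} ξ ∧
      maximisers (j + 2) n = {a : ℕ | a ≤ n ∧ ((ξ ≤ (a : ℝ) ∧ (a : ℝ) ≤ ξ + 1) ∨
        (ξ ≤ (n : ℝ) - a ∧ (n : ℝ) - a ≤ ξ + 1))} := by
  obtain ⟨r, hr, hrr, hev1⟩ := eventually_R1 (2 * j + 1) y₀ hy₀ h0 hpos r₀ hr₀
  obtain ⟨c, ρ, hρ, hev2⟩ := eventually_R0 (2 * j + 1) y₀ hy₀ h0 hpos (r / 2) (by linarith)
  have htend : Tendsto (fun n : ℕ => 1 / (n : ℝ)) atTop (𝓝[>] (0 : ℝ)) := by
    rw [tendsto_nhdsWithin_iff]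
    refine ⟨tendsto_one_div_atTop_nhds_zero_nat, ?_⟩
    filter_upwards [eventually_gt_atTop 0] with n hn
    have : (0 : ℝ) < n := by exact_mod_cast hn
    exact one_div_pos.mpr this
  have hsqrt : Tendsto (fun n : ℕ => √(n : ℝ)) atTop atTop :=
    Real.tendsto_sqrt_atTop.comp tendsto_natCast_atTop_atTop
  filter_upwards [htend.eventually hev1, htend.eventually hev2,
    hsqrt.eventually (eventually_gt_atTop (2 / ρ)), hsqrt.eventually (eventually_gt_atTop (2 / r)),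
    hsqrt.eventually (eventually_gt_atTop (y₀ + r)), eventually_gt_atTop 0] with
    n hn1 hn2 hs1 hs2 hs3 hn0
  obtain ⟨ζ, hζr, hζ0, hζpos, hζneg⟩ := hn1
  obtain ⟨hfar, hnear⟩ := hn2
  set s : ℝ := √(n : ℝ) with hs
  have hnpos : (0 : ℝ) < n := by exact_mod_cast hn0
  have hspos : 0 < s := Real.sqrt_pos.mpr hnpos
  have hsq : s ^ 2 = n := Real.sq_sqrt hnpos.le
  have h1s : 1 / s < r / 2 := by
    rw [div_lt_iff₀ hspos]
    rw [div_lt_iff₀ hr] at hs2
    linarith
  have h2s : 2 / s < ρ := by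
    rw [div_lt_iff₀ hspos]
    rw [div_lt_iff₀ hρ] at hs1
    linarith
  rw [abs_lt] at hζr
  set ξ : ℝ := ((n : ℝ) - 1 - s * ζ) / 2 with hξ
  have hξζ : ((n : ℝ) - 1 - 2 * ξ) / s = ζ := by
    rw [hξ]
    field_simp
    ring
  -- sign of the Krawtchouk polynomial of odd degree
  have hK : ∀ x : ℝ, ((2 * j + 3).factorial : ℝ) * kraw (2 * j + 3) ((n : ℝ) - 1) x =
      s ^ (2 * j + 3) * R 1 (2 * j + 3) (1 / n) (((n : ℝ) - 1 - 2 * x) / s) :=
    fun x => (kraw_eq_R 1 n s x hnpos hsq hspos (2 * j + 3)).1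
  have hfac : (0 : ℝ) < ((2 * j + 3).factorial : ℝ) := by
    exact_mod_cast Nat.factorial_pos _
  have hspow : 0 < s ^ (2 * j + 3) := by positivity
  have hζlt : ∀ x : ℝ, x < ξ → ζ < ((n : ℝ) - 1 - 2 * x) / s := by
    intro x hx
    rw [← hξζ]
    apply div_lt_div_of_pos_right _ hspos
    linarith
  have hζgt : ∀ x : ℝ, ξ < x → ((n : ℝ) - 1 - 2 * x) / s < ζ := by
    intro x hx
    rw [← hξζ]
    apply div_lt_div_of_pos_right _ hspos
    linarith
  have hKpos : ∀ x : ℝ, x < ξ → 0 < kraw (2 * j + 3) ((n : ℝ) - 1) x := by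
    intro x hx
    have h1 := hζpos _ (hζlt x hx)
    have h2 := hK x
    have h3 : 0 < s ^ (2 * j + 3) * R 1 (2 * j + 3) (1 / n) (((n : ℝ) - 1 - 2 * x) / s) :=
      mul_pos hspow h1
    rw [← h2] at h3
    exact (mul_pos_iff_of_pos_left hfac).mp h3
  have hKneg : ∀ x : ℝ, ξ < x → y₀ - r ≤ ((n : ℝ) - 1 - 2 * x) / s →
      kraw (2 * j + 3) ((n : ℝ) - 1) x < 0 := by
    intro x hx hxr
    have h1 := hζneg _ hxr (hζgt x hx)
    have h2 := hK x
    have h3 : s ^ (2 * j + 3) * R 1 (2 * j + 3) (1 / n) (((n : ℝ) - 1 - 2 * x) / s) < 0 :=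
      mul_neg_of_pos_of_neg hspow h1
    rw [← h2] at h3
    by_contra hcon
    rw [not_lt] at hcon
    have := mul_nonneg hfac.le hcon
    linarith
  have hKξ : kraw (2 * j + 3) ((n : ℝ) - 1) ξ = 0 := by
    have h2 := hK ξ
    rw [hξζ] at h2
    have e : R 1 (2 * j + 3) (1 / n) ζ = 0 := hζ0
    rw [e, mul_zero] at h2
    exact (mul_eq_zero.mp h2).resolve_left hfac.ne'
  have hleast : IsLeast {x : ℝ | kraw (2 * j + 3) ((n : ℝ) - 1) x = 0} ξ := by
    refine ⟨hKξ, ?_⟩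
    intro x hx
    by_contra hcon
    rw [not_le] at hcon
    have := hKpos x hcon
    have hx0 : kraw (2 * j + 3) ((n : ℝ) - 1) x = 0 := hx
    linarith
  -- the differences of the edge numbers
  have hD : ∀ b : ℕ, b + 1 ≤ n → (edges (j + 2) n (b + 1) : ℝ) - edges (j + 2) n b =
      kraw (2 * j + 3) ((n : ℝ) - 1) b := fun b hb => edges_diff (j + 1) n b hb
  -- the even degree
  have hK2 : ∀ x : ℝ, ((2 * j + 4).factorial : ℝ) * kraw (2 * j + 4) (n : ℝ) x =
      s ^ (2 * j + 4) * R 0 (2 * j + 4) (1 / n) (((n : ℝ) - 2 * x) / s) := by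
    intro x
    have h := (kraw_eq_R 0 n s x hnpos hsq hspos (2 * j + 4)).1
    rw [sub_zero] at h
    exact h
  have hfac2 : (0 : ℝ) < ((2 * j + 4).factorial : ℝ) := by
    exact_mod_cast Nat.factorial_pos _
  have hspow2 : 0 < s ^ (2 * j + 4) := by positivity
  have hcomp : ∀ a b : ℕ, a ≤ n → b ≤ n → edges (j + 2) n a ≤ edges (j + 2) n b →
      R 0 (2 * j + 4) (1 / n) (((n : ℝ) - 2 * b) / s) ≤
        R 0 (2 * j + 4) (1 / n) (((n : ℝ) - 2 * a) / s) := by
    intro a b ha hb hab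
    have e1 := edges_eq (j + 2) n a ha
    have e2 := edges_eq (j + 2) n b hb
    have hab' : (edges (j + 2) n a : ℝ) ≤ edges (j + 2) n b := by exact_mod_cast hab
    rw [show 2 * (j + 2) = 2 * j + 4 by ring] at e1 e2
    have e3 : kraw (2 * j + 4) (n : ℝ) b ≤ kraw (2 * j + 4) (n : ℝ) a := by linarith
    have e4 := mul_le_mul_of_nonneg_left e3 hfac2.le
    rw [hK2, hK2] at e4
    exact (mul_le_mul_iff_right₀ hspow2).mp e4
  -- a good competitor
  obtain ⟨a₀, ha₀n, ha₀⟩ : ∃ a₀ : ℕ, a₀ ≤ n ∧ |((n : ℝ) - 2 * a₀) / s - y₀| < ρ := by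
    have hnn : 0 ≤ ((n : ℝ) - s * y₀) / 2 := by
      have : s * y₀ ≤ n := by
        rw [← hsq, pow_two]
        apply mul_le_mul_of_nonneg_left _ hspos.le
        linarith
      linarith
    refine ⟨⌊((n : ℝ) - s * y₀) / 2⌋₊, ?_, ?_⟩
    · have h1 := Nat.floor_le hnn
      have h2 : ((⌊((n : ℝ) - s * y₀) / 2⌋₊ : ℕ) : ℝ) ≤ n := by
        have : 0 < s * y₀ := mul_pos hspos hy₀
        linarith
      exact_mod_cast h2
    · have h1 := Nat.floor_le hnn
      have h2 := Nat.lt_floor_add_one (((n : ℝ) - s * y₀) / 2)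
      set a : ℝ := ((⌊((n : ℝ) - s * y₀) / 2⌋₊ : ℕ) : ℝ) with ha
      have h3 : ((n : ℝ) - 2 * a) / s - y₀ = ((n : ℝ) - 2 * a - s * y₀) / s := by
        field_simp
      rw [h3, abs_of_nonneg (div_nonneg (by linarith) hspos.le)]
      calc ((n : ℝ) - 2 * a - s * y₀) / s ≤ 2 / s := by
            apply div_le_div_of_nonneg_right _ hspos.le
            linarith
        _ < ρ := h2s
  -- location of maximisers in the left half
  have hloc : ∀ b : ℕ, b ∈ maximisers (j + 2) n → 2 * b ≤ n →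
      |((n : ℝ) - 2 * b) / s - y₀| < r / 2 := by
    intro b hb hbn
    by_contra hcon
    rw [not_lt] at hcon
    have hb0 : (0 : ℝ) ≤ ((n : ℝ) - 2 * b) / s := by
      apply div_nonneg _ hspos.le
      have : (2 * b : ℝ) ≤ n := by exact_mod_cast hbn
      linarith
    have h1 := hfar _ hb0 hcon
    have h2 := hnear _ ha₀
    have h3 := hcomp a₀ b ha₀n hb.1 (hb.2 a₀ ha₀n)
    have e1 : R 0 (2 * j + 1 + 3) (1 / (n : ℝ)) (((n : ℝ) - 2 * b) / s) =
      R 0 (2 * j + 4) (1 / n) (((n : ℝ) - 2 * b) / s) := rfl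
    have e2 : R 0 (2 * j + 1 + 3) (1 / (n : ℝ)) (((n : ℝ) - 2 * a₀) / s) =
      R 0 (2 * j + 4) (1 / n) (((n : ℝ) - 2 * a₀) / s) := rfl
    rw [e1] at h1
    rw [e2] at h2
    linarith
  have hbound : ∀ b : ℕ, b ∈ maximisers (j + 2) n → 2 * b ≤ n → ξ ≤ (b : ℝ) ∧ (b : ℝ) ≤ ξ + 1 := by
    intro b hb hbn
    have hl := hloc b hb hbn
    rw [abs_lt] at hl
    have hb1 : b + 1 ≤ n := by omega
    refine ⟨?_, ?_⟩
    · by_contra hcon
      rw [not_le] at hcon
      have h1 := hKpos b hcon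
      rw [← hD b hb1] at h1
      have h2 := hb.2 (b + 1) hb1
      have h3 : (edges (j + 2) n (b + 1) : ℝ) ≤ edges (j + 2) n b := by exact_mod_cast h2
      linarith
    · by_contra hcon
      rw [not_le] at hcon
      have hbpos : 1 ≤ b := by
        by_contra h
        have hb0 : b = 0 := by omega
        rw [hb0] at hl
        have h5 : ((n : ℝ) - 2 * ((0 : ℕ) : ℝ)) / s = s := by
          rw [← hsq]
          field_simp
          simp
        rw [h5] at hl
        linarith [hl.2]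
      obtain ⟨b', rfl⟩ : ∃ b', b = b' + 1 := ⟨b - 1, by omega⟩
      push_cast at hcon hl
      have h1 := hKneg (b' : ℝ) (by linarith) (by
        have h6 : ((n : ℝ) - 1 - 2 * b') / s = ((n : ℝ) - 2 * (b' + 1)) / s + 1 / s := by
          rw [← add_div]
          congr 1
          ring
        rw [h6]
        have : 0 < 1 / s := by positivity
        linarith [hl.1])
      rw [← hD b' (by omega)] at h1
      have h2 := hb.2 b' (by omega)
      have h3 : (edges (j + 2) n b' : ℝ) ≤ edges (j + 2) n (b' + 1) := by exact_mod_cast h2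
      linarith
  -- converse
  have hconv : ∀ b : ℕ, b ≤ n → ξ ≤ (b : ℝ) → (b : ℝ) ≤ ξ + 1 → b ∈ maximisers (j + 2) n := by
    intro b hbn hb1 hb2
    obtain ⟨a, ha, han⟩ : ∃ a, a ∈ maximisers (j + 2) n ∧ 2 * a ≤ n := by
      obtain ⟨a, ha⟩ := maximisers_nonempty (j + 2) n
      rcases le_or_gt (2 * a) n with h | h
      · exact ⟨a, ha, h⟩
      · exact ⟨n - a, maximisers_symm ha, by omega⟩
    obtain ⟨h1, h2⟩ := hbound a ha han
    have haux : ∀ u : ℕ, u + 1 ≤ n → ξ ≤ (u : ℝ) → ((u + 1 : ℕ) : ℝ) ≤ ξ + 1 →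
        edges (j + 2) n (u + 1) = edges (j + 2) n u := by
      intro u hu hu1 hu2
      push_cast at hu2
      have hu3 : (u : ℝ) = ξ := le_antisymm (by linarith) hu1
      have h5 := hD u hu
      rw [hu3, hKξ] at h5
      have h6 : (edges (j + 2) n (u + 1) : ℝ) = edges (j + 2) n u := by linarith
      exact_mod_cast h6
    have hcases : b = a ∨ b = a + 1 ∨ a = b + 1 := by
      have h7 : (b : ℝ) ≤ a + 1 := by linarith
      have h8 : (a : ℝ) ≤ b + 1 := by linarith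
      have h9 : b ≤ a + 1 := by exact_mod_cast h7
      have h10 : a ≤ b + 1 := by exact_mod_cast h8
      omega
    rcases hcases with h | h | h
    · rw [h]; exact ha
    · refine ⟨hbn, fun u hu => ?_⟩
      rw [h, haux a (by omega) h1 (by rw [← h]; exact hb2)]
      exact ha.2 u hu
    · refine ⟨hbn, fun u hu => ?_⟩
      have := haux b (by omega) hb1 (by rw [← h]; exact h2)
      rw [← this, ← h]
      exact ha.2 u hu
  refine ⟨ξ, ?_, hleast, ?_⟩
  · rw [hξζ, abs_lt]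
    exact ⟨by linarith [hζr.1], by linarith [hζr.2]⟩
  · ext a
    simp only [Set.mem_ofPred_eq]
    constructor
    · intro ha
      refine ⟨ha.1, ?_⟩
      rcases le_or_gt (2 * a) n with h | h
      · exact Or.inl (hbound a ha h)
      · have h1 := hbound (n - a) (maximisers_symm ha) (by omega)
        rw [Nat.cast_sub ha.1] at h1
        exact Or.inr h1
    · rintro ⟨han, h | h⟩
      · exact hconv a han h.1 h.2
      · have h1 := hconv (n - a) (by omega) (by rw [Nat.cast_sub han]; exact h.1)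
          (by rw [Nat.cast_sub han]; exact h.2)
        have h2 := maximisers_symm h1
        rwa [show n - (n - a) = a by omega] at h2

end Pool.Agent.Q170.Kraw
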