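import Pool.Agent.Q170.Kraw.Basic

open Finset Filter Topology

namespace Pool.Agent.Q170.Kraw

/-- The rescaled Krawtchouk polynomials. -/
noncomputable def R (c : ℝ) : ℕ → ℝ → ℝ → ℝ
  | 0, _, _ => 1
  | 1, _, η => η
  | (m + 2), δ, η => η * R c (m + 1) δ η - ((m : ℝ) + 1) * (1 - ((m : ℝ) + c) * δ) * R c m δ η

/-- Their derivatives in the last variable. -/
noncomputable def R' (c : ℝ) : ℕ → ℝ → ℝ → ℝ
  | 0, _, _ => 0
  | 1, _, _ => 1
  | (m + 2), δ, η => R c (m + 1) δ η + η * R' c (m + 1) δ η -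
      ((m : ℝ) + 1) * (1 - ((m : ℝ) + c) * δ) * R' c m δ η

lemma R_zero (c δ η : ℝ) : R c 0 δ η = 1 := rfl
lemma R_one (c δ η : ℝ) : R c 1 δ η = η := rfl
lemma R_rec (c δ η : ℝ) (m : ℕ) : R c (m + 2) δ η =
    η * R c (m + 1) δ η - ((m : ℝ) + 1) * (1 - ((m : ℝ) + c) * δ) * R c m δ η := rfl
lemma R'_rec (c δ η : ℝ) (m : ℕ) : R' c (m + 2) δ η =
    R c (m + 1) δ η + η * R' c (m + 1) δ η -
      ((m : ℝ) + 1) * (1 - ((m : ℝ) + c) * δ) * R' c m δ η := rfl

/-- The link with Krawtchouk polynomials. -/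
lemma kraw_eq_R (c n s x : ℝ) (hn : 0 < n) (hs : s ^ 2 = n) (hs0 : 0 < s) (m : ℕ) :
    (m.factorial : ℝ) * kraw m (n - c) x = s ^ m * R c m (1 / n) ((n - c - 2 * x) / s) ∧
    ((m + 1).factorial : ℝ) * kraw (m + 1) (n - c) x =
      s ^ (m + 1) * R c (m + 1) (1 / n) ((n - c - 2 * x) / s) := by
  induction m with
  | zero =>
    refine ⟨?_, ?_⟩
    · simp [kraw_zero, R_zero]
    · simp only [zero_add, Nat.factorial_one, Nat.cast_one, one_mul, pow_one, kraw_one, R_one]
      field_simp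
  | succ m ih =>
    obtain ⟨ih1, ih2⟩ := ih
    refine ⟨ih2, ?_⟩
    rw [R_rec]
    have hrec := kraw_rec m (n - c) x
    have hf1 : ((m + 1 + 1).factorial : ℝ) = ((m : ℝ) + 2) * ((m + 1).factorial : ℝ) := by
      rw [Nat.factorial_succ]
      push_cast
      ring
    have hf2 : ((m + 1).factorial : ℝ) = ((m : ℝ) + 1) * (m.factorial : ℝ) := by
      rw [Nat.factorial_succ]
      push_cast
      ring
    calc ((m + 1 + 1).factorial : ℝ) * kraw (m + 1 + 1) (n - c) x
        = ((m + 1).factorial : ℝ) * (((m : ℝ) + 2) * kraw (m + 2) (n - c) x) := by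
          rw [hf1]
          ring
      _ = (n - c - 2 * x) * (((m + 1).factorial : ℝ) * kraw (m + 1) (n - c) x) -
          ((m : ℝ) + 1) * (n - c - m) * ((m.factorial : ℝ) * kraw m (n - c) x) := by
          rw [hrec, hf2]
          ring
      _ = (n - c - 2 * x) * (s ^ (m + 1) * R c (m + 1) (1 / n) ((n - c - 2 * x) / s)) -
          ((m : ℝ) + 1) * (n - c - m) * (s ^ m * R c m (1 / n) ((n - c - 2 * x) / s)) := by
          rw [ih1, ih2]
      _ = s ^ (m + 2) * ((n - c - 2 * x) / s * R c (m + 1) (1 / n) ((n - c - 2 * x) / s)) -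
          s ^ (m + 2) * ((m + 1) * (1 - (m + c) * (1 / n)) *
            R c m (1 / n) ((n - c - 2 * x) / s)) := by
          have e1 : s ^ (m + 2) * ((n - c - 2 * x) / s *
              R c (m + 1) (1 / n) ((n - c - 2 * x) / s)) =
              (n - c - 2 * x) * (s ^ (m + 1) * R c (m + 1) (1 / n) ((n - c - 2 * x) / s)) := by
            rw [pow_succ s (m + 1)]
            field_simp
          have e2 : s ^ (m + 2) * (((m : ℝ) + 1) * (1 - (m + c) * (1 / n)) *
              R c m (1 / n) ((n - c - 2 * x) / s)) =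
              ((m : ℝ) + 1) * (n - c - m) * (s ^ m * R c m (1 / n) ((n - c - 2 * x) / s)) := by
            rw [pow_add, hs]
            field_simp
            ring
          rw [e1, e2]
      _ = _ := by ring

lemma continuous_R (c : ℝ) (m : ℕ) : Continuous (fun p : ℝ × ℝ => R c m p.1 p.2) ∧
    Continuous (fun p : ℝ × ℝ => R c (m + 1) p.1 p.2) := by
  induction m with
  | zero =>
    exact ⟨continuous_const, continuous_snd⟩
  | succ m ih =>
    refine ⟨ih.2, ?_⟩
    simp only [R_rec]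
    have h1 := ih.1
    have h2 := ih.2
    fun_prop

lemma continuous_R' (c : ℝ) (m : ℕ) : Continuous (fun p : ℝ × ℝ => R' c m p.1 p.2) ∧
    Continuous (fun p : ℝ × ℝ => R' c (m + 1) p.1 p.2) := by
  induction m with
  | zero =>
    exact ⟨continuous_const, continuous_const⟩
  | succ m ih =>
    refine ⟨ih.2, ?_⟩
    simp only [R'_rec]
    have h1 := ih.1
    have h2 := ih.2
    have h3 := (continuous_R c m).2
    fun_prop

lemma hasDerivAt_R (c δ η : ℝ) (m : ℕ) : HasDerivAt (fun η => R c m δ η) (R' c m δ η) η ∧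
    HasDerivAt (fun η => R c (m + 1) δ η) (R' c (m + 1) δ η) η := by
  induction m with
  | zero =>
    exact ⟨hasDerivAt_const _ _, hasDerivAt_id _⟩
  | succ m ih =>
    refine ⟨ih.2, ?_⟩
    have h := ((hasDerivAt_id η).mul ih.2).sub
      (ih.1.const_mul (((m : ℝ) + 1) * (1 - ((m : ℝ) + c) * δ)))
    simp only [R_rec, R'_rec]
    refine h.congr_deriv ?_
    simp only [id_eq]
    ring

lemma R_neg (c δ η : ℝ) (m : ℕ) : R c m δ (-η) = (-1) ^ m * R c m δ η ∧
    R c (m + 1) δ (-η) = (-1) ^ (m + 1) * R c (m + 1) δ η := by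
  induction m with
  | zero => simp [R_zero, R_one]
  | succ m ih =>
    refine ⟨ih.2, ?_⟩
    rw [R_rec, R_rec, ih.1, ih.2]
    ring

lemma R_growth (c δ η : ℝ) (M : ℕ) (hc : 0 ≤ c) (hδ : 0 ≤ δ) (h1 : ((M : ℝ) + c) * δ ≤ 1)
    (hη : (M : ℝ) + 2 ≤ η) (m : ℕ) (hm : m ≤ M) :
    1 ≤ R c m δ η ∧ R c m δ η ≤ R c (m + 1) δ η ∧ 1 ≤ R c (m + 1) δ η := by
  induction m with
  | zero =>
    rw [R_zero, zero_add, R_one]
    have : (0 : ℝ) ≤ M := Nat.cast_nonneg M
    refine ⟨le_rfl, by linarith, by linarith⟩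
  | succ m ih =>
    obtain ⟨ih1, ih2, ih3⟩ := ih (by omega)
    refine ⟨ih3, ?_, ?_⟩
    all_goals
      rw [R_rec]
      have hmM : (m : ℝ) + 1 ≤ M := by exact_mod_cast hm
      have hm0 : (0 : ℝ) ≤ m := Nat.cast_nonneg m
      have hle1 : 1 - ((m : ℝ) + c) * δ ≤ 1 := by
        have : 0 ≤ ((m : ℝ) + c) * δ := by positivity
        linarith
      have hge0 : 0 ≤ 1 - ((m : ℝ) + c) * δ := by
        have : ((m : ℝ) + c) * δ ≤ ((M : ℝ) + c) * δ := by
          apply mul_le_mul_of_nonneg_right _ hδ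
          linarith
        linarith
      have hR0 : 0 ≤ R c m δ η := by linarith
      have h2 : (1 - ((m : ℝ) + c) * δ) * R c m δ η ≤ R c m δ η := by nlinarith
      have h3 : ((m : ℝ) + 1) * (1 - ((m : ℝ) + c) * δ) * R c m δ η ≤
          ((m : ℝ) + 1) * R c (m + 1) δ η := by
        rw [mul_assoc]
        apply mul_le_mul_of_nonneg_left _ (by positivity)
        linarith
      nlinarith

/-- Hermite polynomials. -/
noncomputable def herm (m : ℕ) (η : ℝ) : ℝ := R 0 m 0 η

lemma R_at_zero (c η : ℝ) (m : ℕ) : R c m 0 η = herm m η ∧ R c (m + 1) 0 η = herm (m + 1) η := by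
  induction m with
  | zero => exact ⟨rfl, rfl⟩
  | succ m ih =>
    refine ⟨ih.2, ?_⟩
    unfold herm at ih ⊢
    rw [R_rec, R_rec, ih.1, ih.2]
    ring

lemma herm_zero (η : ℝ) : herm 0 η = 1 := rfl
lemma herm_one (η : ℝ) : herm 1 η = η := rfl
lemma herm_rec (m : ℕ) (η : ℝ) :
    herm (m + 2) η = η * herm (m + 1) η - ((m : ℝ) + 1) * herm m η := by
  unfold herm
  rw [R_rec]
  ring

lemma R'_at_zero (c η : ℝ) (m : ℕ) : R' c (m + 1) 0 η = ((m : ℝ) + 1) * herm m η ∧
    R' c (m + 2) 0 η = ((m : ℝ) + 2) * herm (m + 1) η := by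
  induction m with
  | zero =>
    refine ⟨?_, ?_⟩
    · simp [R', herm_zero]
    · rw [R'_rec]
      simp [R', R, herm_one]
      ring
  | succ m ih =>
    refine ⟨?_, ?_⟩
    · rw [ih.2]
      push_cast
      ring
    · rw [R'_rec, ih.2, ih.1, (R_at_zero c η (m + 1)).2, herm_rec]
      push_cast
      ring

lemma hasDerivAt_herm (m : ℕ) (η : ℝ) :
    HasDerivAt (herm (m + 1)) (((m : ℝ) + 1) * herm m η) η := by
  have h := (hasDerivAt_R 0 0 η m).2
  rw [(R'_at_zero 0 η m).1] at h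
  exact h

lemma continuous_herm (m : ℕ) : Continuous (herm m) := by
  have h := (continuous_R 0 m).1
  exact h.comp (continuous_const.prodMk continuous_id)

lemma herm_neg (m : ℕ) (η : ℝ) : herm m (-η) = (-1) ^ m * herm m η := (R_neg 0 0 η m).1

lemma herm_ge_one (m : ℕ) (η : ℝ) (h : (m : ℝ) + 2 ≤ η) : 1 ≤ herm m η := by
  have := (R_growth 0 0 η m le_rfl le_rfl (by simp) h m le_rfl).1
  exact this

/-- the Mathlib Hermite polynomials. -/
lemma derivative_hermite (m : ℕ) :
    Polynomial.derivative (Polynomial.hermite (m + 1)) = ((m : ℤ) + 1 : ℤ) • Polynomial.hermite m := by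
  induction m with
  | zero => simp
  | succ m ih =>
    rw [Polynomial.hermite_succ (m + 1), Polynomial.derivative_sub, Polynomial.derivative_mul, ih]
    rw [Polynomial.derivative_smul, Polynomial.derivative_X]
    have h := Polynomial.hermite_succ m
    rw [h]
    push_cast
    simp only [zsmul_eq_mul]
    push_cast
    ring

lemma herm_eq_hermite (m : ℕ) (η : ℝ) : herm m η = Polynomial.aeval η (Polynomial.hermite m) ∧
    herm (m + 1) η = Polynomial.aeval η (Polynomial.hermite (m + 1)) := by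
  induction m with
  | zero => simp [herm_zero, herm_one]
  | succ m ih =>
    refine ⟨ih.2, ?_⟩
    rw [herm_rec, ih.1, ih.2, Polynomial.hermite_succ (m + 1), derivative_hermite]
    simp

end Pool.Agent.Q170.Kraw
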